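import Pool.Agent.H34.GA.Targets1

/-!
Row PA1 of gaa_modules (MP_52e316_nt): the scalar product with `F`, direct side.
-/

set_option autoImplicit false

namespace Pool.Agent.H63.GA

open MeasureTheory Pool.Agent.H34.GM Pool.Agent.H34.GZ Pool.Agent.H34.GU Pool.Agent.H34.GA

theorem p_det_ne {m : ℕ} (hm : 1 ≤ m) {z : Mat m} (h : 1 ≤ aN z) : z.det ≠ 0 := by
  intro h0
  unfold aN at h
  rw [h0, abs_zero, Real.zero_rpow] at h
  · linarith
  · have : (0 : ℝ) < m := by exact_mod_cast hm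
    exact (one_div_pos.2 this).ne'

theorem p_aN_pow {m : ℕ} (hm : 1 ≤ m) (z : Mat m) : (aN z) ^ m = |z.det| := by
  have h0 : (m : ℝ) ≠ 0 := by
    have : (0 : ℝ) < m := by exact_mod_cast hm
    exact this.ne'
  unfold aN
  rw [← Real.rpow_natCast, ← Real.rpow_mul (abs_nonneg _), one_div, inv_mul_cancel₀ h0,
    Real.rpow_one]

theorem p_cont_aN (m : ℕ) : Continuous (fun z : Mat m => aN z) := by
  unfold aN
  refine Continuous.rpow_const (Continuous.matrix_det continuous_id).abs fun z => Or.inr ?_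
  positivity

theorem p_cont_inv (m : ℕ) : ContinuousOn (fun z : Mat m => z⁻¹) {z | z.det ≠ 0} := by
  have h : (fun z : Mat m => z⁻¹) = fun z : Mat m => (z.det)⁻¹ • z.adjugate := by
    funext z
    rw [Matrix.inv_def, Ring.inverse_eq_inv']
  rw [h]
  have h1 : Continuous fun z : Mat m => z.det := Continuous.matrix_det continuous_id
  have h2 : Continuous fun z : Mat m => z.adjugate := Continuous.matrix_adjugate continuous_id
  exact ContinuousOn.smul (ContinuousOn.inv₀ h1.continuousOn fun z hz => hz) h2.continuousOn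

/-- the determinant of the normalised argument -/
theorem p_det {m : ℕ} (hm : 1 ≤ m) {z : Mat m} (h : 1 ≤ aN z) (r : ℝ) (hr : 0 < r) :
    |((r⁻¹ * (aN z)⁻¹) • z).det| = (r⁻¹) ^ m := by
  have h0 : 0 < aN z := lt_of_lt_of_le one_pos h
  rw [Matrix.det_smul, Fintype.card_fin, abs_mul, abs_pow, abs_of_pos (by positivity),
    ← p_aN_pow hm z, mul_pow, mul_assoc, ← mul_pow, inv_mul_cancel₀ h0.ne', one_pow, mul_one]

theorem p_detle {m : ℕ} (z : Mat m) : |z.det| ≤ (m.factorial : ℝ) * (sz z) ^ m := by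
  have h := Matrix.det_le (A := z) (abv := AbsoluteValue.abs) (x := sz z) (fun i j => by
    have h1 : ‖((fun i j => z i j) : V m) i‖ ≤ ‖((fun i j => z i j) : V m)‖ :=
      norm_le_pi_norm ((fun i j => z i j) : V m) i
    have h2 : ‖((fun i j => z i j) : V m) i j‖ ≤ ‖((fun i j => z i j) : V m) i‖ :=
      norm_le_pi_norm (((fun i j => z i j) : V m) i) j
    exact h2.trans h1)
  simpa [Fintype.card_fin, nsmul_eq_mul] using h

/-- the test function vanishes at the normalised arguments for small `r` -/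
theorem p_van {m : ℕ} (hm : 1 ≤ m) {Φ : Mat m → ℂ} (hΦ : Tg m Φ) : ∃ B : ℝ, ∀ r : ℝ, 0 < r →
    B < (r⁻¹) ^ m → ∀ z ∈ Shell m, Φ ((r⁻¹ * (aN (mt z))⁻¹) • mt z) = 0 := by
  obtain ⟨c, hc, hs⟩ := hΦ.supp
  refine ⟨(m.factorial : ℝ) * c ^ m, fun r hr hB z hz => ?_⟩
  by_contra h0
  have h1 := (hs _ h0).1
  have h2 := p_detle ((r⁻¹ * (aN (mt z))⁻¹) • mt z)
  rw [p_det hm hz.1 r hr] at h2
  have h3 : 0 ≤ sz ((r⁻¹ * (aN (mt z))⁻¹) • mt z) := norm_nonneg _
  have h4 : (m.factorial : ℝ) * (sz ((r⁻¹ * (aN (mt z))⁻¹) • mt z)) ^ m ≤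
      (m.factorial : ℝ) * c ^ m :=
    mul_le_mul_of_nonneg_left (pow_le_pow_left₀ h3 h1 m) (Nat.cast_nonneg _)
  linarith

theorem p_pow {m : ℕ} (hm : 1 ≤ m) {r : ℝ} {n : ℕ} (hn : 1 ≤ n) :
    ((r * (n : ℝ) ^ (-(1 / (m : ℝ))))⁻¹) ^ m = (r⁻¹) ^ m * n := by
  have hn0 : (0 : ℝ) < n := by exact_mod_cast hn
  have h0 : (m : ℝ) ≠ 0 := by
    have : (0 : ℝ) < m := by exact_mod_cast hm
    exact this.ne'
  rw [mul_inv, ← Real.rpow_neg hn0.le, neg_neg, mul_pow]
  congr 1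
  rw [← Real.rpow_natCast, ← Real.rpow_mul hn0.le, one_div, inv_mul_cancel₀ h0, Real.rpow_one]

/-- a finite set of places carries `thA` -/
theorem p_fin {m : ℕ} (hm : 1 ≤ m) {Φ : Mat m → ℂ} (hΦ : Tg m Φ) {r : ℝ} (hr : 0 < r) :
    ∃ s : Finset ℕ, ∀ (ψ : ℝ → ℂ) (lam : ℕ → ℂ), (∀ r' : ℝ, 0 < r' →
      (∀ z ∈ Shell m, Φ ((r'⁻¹ * (aN (mt z))⁻¹) • mt z) = 0) → ψ r' = 0) →
      thA m ψ lam r = ∑ n ∈ s, if 1 ≤ n then
        (n : ℂ) ^ (((m : ℂ) - 1) / 2) * lam n * ψ (r * (n : ℝ) ^ (-(1 / (m : ℝ)))) else 0 := by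
  obtain ⟨B, hB⟩ := p_van hm hΦ
  refine ⟨Finset.range (⌊B * r ^ m⌋₊ + 1), fun ψ lam hψ => ?_⟩
  unfold thA
  refine tsum_eq_sum fun n hn => ?_
  by_cases h1 : 1 ≤ n
  · rw [if_pos h1]
    have hn0 : (0 : ℝ) < n := by exact_mod_cast h1
    rw [Finset.mem_range, not_lt] at hn
    have h2 : B * r ^ m < n := by
      have h3 : ⌊B * r ^ m⌋₊ < n := by omega
      exact Nat.lt_of_floor_lt h3
    have h4 : B < ((r * (n : ℝ) ^ (-(1 / (m : ℝ))))⁻¹) ^ m := by
      rw [p_pow hm h1, inv_pow, mul_comm, ← div_eq_mul_inv, lt_div_iff₀ (by positivity)]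
      exact h2
    rw [hψ _ (by positivity) (hB _ (by positivity) h4), mul_zero]
  · rw [if_neg h1]

theorem p_bd {m : ℕ} {Φ : Mat m → ℂ} (hΦ : Tg m Φ) (N : ℕ) : ∃ M : ℝ, 0 ≤ M ∧ ∀ z,
    ‖Φ z‖ ≤ M * (1 + sz z) ^ (-(N : ℝ)) := by
  obtain ⟨c, hc, hsupp⟩ := hΦ.supp
  obtain ⟨S, hS⟩ := (isCompact_closedBall (0 : V m) c).exists_bound_of_continuousOn
    (f := fun z : V m => Φ (mt z)) (hΦ.cont.comp continuous_id).continuousOn
  have hS0 : 0 ≤ S := (norm_nonneg _).trans (hS 0 (by simp [hc.le]))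
  refine ⟨S * (1 + c) ^ (N : ℝ), by positivity, fun z => ?_⟩
  have h0 : 0 ≤ sz z := norm_nonneg _
  by_cases hz : Φ z = 0
  · rw [hz, norm_zero]
    positivity
  · have h1 : sz z ≤ c := (hsupp z hz).1
    have h2 : 1 ≤ (1 + c) ^ (N : ℝ) * (1 + sz z) ^ (-(N : ℝ)) := by
      rw [Real.rpow_neg (by linarith), ← div_eq_mul_inv, one_le_div (by positivity)]
      exact Real.rpow_le_rpow (by linarith) (by linarith) (Nat.cast_nonneg _)
    have h3 : ‖Φ z‖ ≤ S := hS (fun i j => z i j) (by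
      rw [mem_closedBall_zero_iff]
      exact h1)
    calc ‖Φ z‖ ≤ S := h3
      _ = S * 1 := (mul_one S).symm
      _ ≤ S * ((1 + c) ^ (N : ℝ) * (1 + sz z) ^ (-(N : ℝ))) := mul_le_mul_of_nonneg_left h2 hS0
      _ = _ := by ring

/-- the test function is integrable over the shell -/
theorem p_int (hUBD : T_UBD) {m : ℕ} (hm1 : 1 ≤ m) {Φ : Mat m → ℂ} (hΦ : Tg m Φ) {r : ℝ}
    (hr : 0 < r) : Integrable (fun z : V m => Φ ((r⁻¹ * (aN (mt z))⁻¹) • mt z))
      ((hm m).restrict (Shell m)) := by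
  obtain ⟨N, C, hC, h⟩ := hUBD m hm1 ((m : ℝ) ^ 2) le_rfl
  obtain ⟨M, hM, hb⟩ := p_bd hΦ N
  have h1 := (h (fun _ => 1) Φ 1 M ⟨aestronglyMeasurable_const, fun _ _ _ _ => rfl,
    fun _ _ => by simp⟩ zero_le_one hM hΦ.cont hb r hr).1
  simp only [mul_one] at h1
  exact h1

/-- Fubini -/
theorem p_fub (hUBD : T_UBD) (hMSR : T_MSR) (hVLM : T_VLM) {m N : ℕ} [NeZero N]
    {T : ℕ → Finset (ZM m)} {D : Set (V m)} (hS : SysZ m N T D) {F : Mat m → VN m N → ℂ}
    {lam : ℕ → ℂ} (hF : HecA m N T F lam) {Φ : Mat m → ℂ} (hΦ : Tg m Φ) {r : ℝ} (hr : 0 < r) :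
    (∀ x, Integrable (fun g : V m => Rr Φ r F (mt g) x * (starRingEnd ℂ) (F (mt g) x))
      ((hm m).restrict D)) ∧
    ∑ x, ∫ g in D, Rr Φ r F (mt g) x * (starRingEnd ℂ) (F (mt g) x) ∂(hm m) =
      uu Φ (c1 D F) r := by
  have hm1 := hS.one_le
  have hD := hS.dom
  obtain ⟨C, K, -, hvl⟩ := hVLM m hm1
  have hfin : hm m D < ⊤ := lt_of_le_of_lt (hvl D hD).1 ENNReal.ofReal_lt_top
  have hfm : IsFiniteMeasure ((hm m).restrict D) := ⟨by rwa [Measure.restrict_apply_univ]⟩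
  obtain ⟨-, -, -, -, hsig, hSh, -, -⟩ := hMSR.1 m
  obtain ⟨BF, hBF⟩ := hF.bdd
  have hsD : ∀ z ∈ D, (mt z).det ≠ 0 := fun z hz => p_det_ne hm1 (hD.shell z hz).1
  have hsS : ∀ z ∈ Shell m, (mt z).det ≠ 0 := fun z hz => p_det_ne hm1 hz.1
  have hdet : ∀ g ∈ D, ∀ z ∈ Shell m, (mt g * (mt z)⁻¹ : Mat m).det ≠ 0 := by
    intro g hg z hz
    rw [Matrix.det_mul, Matrix.det_nonsing_inv, Ring.inverse_eq_inv']
    exact mul_ne_zero (hsD g hg) (inv_ne_zero (hsS z hz))
  -- the integrand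
  have hint : ∀ x, Integrable (fun p : V m × V m =>
      Φ ((r⁻¹ * (aN (mt p.2))⁻¹) • mt p.2) * F (mt p.1 * (mt p.2)⁻¹) x *
        (starRingEnd ℂ) (F (mt p.1) x))
      (((hm m).restrict D).prod ((hm m).restrict (Shell m))) := by
    intro x
    have h1 : Integrable (fun p : V m × V m => (BF ^ 2 : ℝ) *
        ‖Φ ((r⁻¹ * (aN (mt p.2))⁻¹) • mt p.2)‖)
        (((hm m).restrict D).prod ((hm m).restrict (Shell m))) :=
      (integrable_const (BF ^ 2 : ℝ)).mul_prod (p_int hUBD hm1 hΦ hr).norm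
    refine h1.mono' ?_ ?_
    · rw [Measure.prod_restrict]
      refine ContinuousOn.aestronglyMeasurable ?_ (hD.meas.prod hSh)
      have hc1 : ContinuousOn (fun p : V m × V m => (r⁻¹ * (aN (mt p.2))⁻¹) • mt p.2)
          (D ×ˢ Shell m) := by
        have e0 : ContinuousOn (fun p : V m × V m => aN (mt p.2 : Mat m)) (D ×ˢ Shell m) :=
          ((p_cont_aN m).comp (f := fun p : V m × V m => (mt p.2 : Mat m))
            continuous_snd).continuousOn
        have e1 : ContinuousOn (fun p : V m × V m => r⁻¹ * (aN (mt p.2 : Mat m))⁻¹)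
            (D ×ˢ Shell m) :=
          continuousOn_const.mul (e0.inv₀ fun p hp => (lt_of_lt_of_le one_pos hp.2.1).ne')
        have e2 : ContinuousOn (fun p : V m × V m => (mt p.2 : Mat m)) (D ×ˢ Shell m) :=
          (continuous_snd (X := V m) (Y := V m)).continuousOn
        exact e1.smul e2
      have hc2 : ContinuousOn (fun p : V m × V m => (mt p.1 * (mt p.2)⁻¹ : Mat m))
          (D ×ˢ Shell m) := by
        have e1 : ContinuousOn (fun p : V m × V m => (mt p.1 : Mat m)) (D ×ˢ Shell m) := by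
          exact (continuous_fst (X := V m) (Y := V m)).continuousOn
        have e2 : ContinuousOn (fun p : V m × V m => ((mt p.2)⁻¹ : Mat m)) (D ×ˢ Shell m) := by
          refine (p_cont_inv m).comp (f := fun p : V m × V m => (mt p.2 : Mat m)) ?_
            (fun p hp => hsS _ hp.2)
          exact (continuous_snd (X := V m) (Y := V m)).continuousOn
        exact e1.mul e2
      refine ContinuousOn.mul (ContinuousOn.mul ?_ ?_) ?_
      · exact hΦ.cont.comp_continuousOn hc1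
      · exact (hF.cont x).comp hc2 (fun p hp => hdet _ hp.1 _ hp.2)
      · refine Complex.continuous_conj.comp_continuousOn ?_
        exact (hF.cont x).comp (f := fun p : V m × V m => (mt p.1 : Mat m))
          continuous_fst.continuousOn fun p hp => hsD _ hp.1
    · rw [Measure.prod_restrict, ae_restrict_iff' (hD.meas.prod hSh)]
      refine Filter.Eventually.of_forall fun p hp => ?_
      have h2 := hBF (mt p.1 * (mt p.2)⁻¹) x (hdet _ hp.1 _ hp.2)
      have h3 := hBF (mt p.1) x (hsD _ hp.1)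
      have hB0 : 0 ≤ BF := (norm_nonneg _).trans h3
      rw [norm_mul, norm_mul, RCLike.norm_conj]
      calc ‖Φ ((r⁻¹ * (aN (mt p.2))⁻¹) • mt p.2)‖ * ‖F (mt p.1 * (mt p.2)⁻¹) x‖ *
            ‖F (mt p.1) x‖
          ≤ ‖Φ ((r⁻¹ * (aN (mt p.2))⁻¹) • mt p.2)‖ * BF * BF := by gcongr
        _ = _ := by ring
  have hRr : ∀ (g : V m) (x : VN m N), ∫ z in Shell m,
      Φ ((r⁻¹ * (aN (mt z))⁻¹) • mt z) * F (mt g * (mt z)⁻¹) x *
        (starRingEnd ℂ) (F (mt g) x) ∂(hm m) =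
      Rr Φ r F (mt g) x * (starRingEnd ℂ) (F (mt g) x) := by
    intro g x
    rw [integral_mul_const]
    rfl
  refine ⟨fun x => ?_, ?_⟩
  · have h1 := (hint x).integral_prod_left
    refine h1.congr (Filter.Eventually.of_forall fun g => ?_)
    exact hRr g x
  · have h1 : ∀ x, ∫ g in D, Rr Φ r F (mt g) x * (starRingEnd ℂ) (F (mt g) x) ∂(hm m) =
        ∫ z in Shell m, ∫ g in D, Φ ((r⁻¹ * (aN (mt z))⁻¹) • mt z) *
          F (mt g * (mt z)⁻¹) x * (starRingEnd ℂ) (F (mt g) x) ∂(hm m) ∂(hm m) := by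
      intro x
      rw [← integral_integral_swap (hint x)]
      exact integral_congr_ae (Filter.Eventually.of_forall fun g => (hRr g x).symm)
    rw [Finset.sum_congr rfl fun x _ => h1 x, ← integral_finsetSum]
    · unfold uu
      refine integral_congr_ae (Filter.Eventually.of_forall fun z => ?_)
      beta_reduce
      unfold c1
      rw [Finset.mul_sum]
      refine Finset.sum_congr rfl fun x _ => ?_
      rw [← integral_const_mul]
      refine integral_congr_ae (Filter.Eventually.of_forall fun g => ?_)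
      exact mul_assoc _ _ _
    · intro x _
      exact (hint x).integral_prod_right

/-- PA1. -/
theorem pf_PA1 (hEIA : T_EIA) (hUBD : T_UBD) (hMSR : T_MSR) (hVLM : T_VLM) : T_PA1 := by
  intro m N _ T D hS F lam hF Φ hΦ r hr
  have hm1 := hS.one_le
  have hD := hS.dom
  have hsD : ∀ z ∈ D, (mt z).det ≠ 0 := fun z hz => p_det_ne hm1 (hD.shell z hz).1
  obtain ⟨s, hs⟩ := p_fin hm1 hΦ hr
  have hpos : ∀ n : ℕ, 1 ≤ n → 0 < r * (n : ℝ) ^ (-(1 / (m : ℝ))) := by
    intro n hn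
    have hn0 : (0 : ℝ) < n := by exact_mod_cast hn
    positivity
  rw [hs (uu Φ (c1 D F)) lam (fun r' _ h0 => by
    unfold uu
    refine setIntegral_eq_zero_of_forall_eq_zero fun z hz => ?_
    rw [h0 z hz, zero_mul])]
  have h1 : ∀ x, ∫ g in D, opAu N Φ r D F (mt g) x * (starRingEnd ℂ) (F (mt g) x) ∂(hm m) =
      ∑ n ∈ s, if 1 ≤ n then (n : ℂ) ^ (((m : ℂ) - 1) / 2) * lam n *
        ∫ g in D, Rr Φ (r * (n : ℝ) ^ (-(1 / (m : ℝ)))) F (mt g) x *
          (starRingEnd ℂ) (F (mt g) x) ∂(hm m) else 0 := by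
    intro x
    have h2 : ∀ g ∈ D, opAu N Φ r D F (mt g) x * (starRingEnd ℂ) (F (mt g) x) =
        ∑ n ∈ s, if 1 ≤ n then (n : ℂ) ^ (((m : ℂ) - 1) / 2) * lam n *
          (Rr Φ (r * (n : ℝ) ^ (-(1 / (m : ℝ)))) F (mt g) x *
            (starRingEnd ℂ) (F (mt g) x)) else 0 := by
      intro g hg
      rw [hEIA m N T D hS F lam hF Φ hΦ (mt g) r x (hsD g hg) hr,
        hs (fun r' => Rr Φ r' F (mt g) x) lam (fun r' _ h0 => by
          unfold Rr
          refine setIntegral_eq_zero_of_forall_eq_zero fun z hz => ?_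
          rw [h0 z hz, zero_mul]), Finset.sum_mul]
      refine Finset.sum_congr rfl fun n _ => ?_
      by_cases hn : 1 ≤ n
      · rw [if_pos hn, if_pos hn, mul_assoc]
      · rw [if_neg hn, if_neg hn, zero_mul]
    rw [setIntegral_congr_fun hD.meas h2, integral_finsetSum]
    · refine Finset.sum_congr rfl fun n _ => ?_
      by_cases hn : 1 ≤ n
      · simp only [if_pos hn]
        rw [integral_const_mul]
      · simp only [if_neg hn]
        simp
    · intro n _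
      by_cases hn : 1 ≤ n
      · simp only [if_pos hn]
        exact ((p_fub hUBD hMSR hVLM hS hF hΦ (hpos n hn)).1 x).const_mul _
      · simp only [if_neg hn]
        exact integrable_zero _ _ _
  rw [Finset.sum_congr rfl fun x _ => h1 x, Finset.sum_comm]
  refine Finset.sum_congr rfl fun n _ => ?_
  by_cases hn : 1 ≤ n
  · simp only [if_pos hn]
    rw [← Finset.mul_sum, (p_fub hUBD hMSR hVLM hS hF hΦ (hpos n hn)).2]
  · simp only [if_neg hn, Finset.sum_const_zero]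

end Pool.Agent.H63.GA
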