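import Pool.Agent.H34.GA.Targets1

/-!
Row CCO of gaa_modules (MP_52e316_nt): continuity of the coefficient function at `1`.
-/

set_option autoImplicit false

namespace Pool.Agent.H63.GA

open MeasureTheory Pool.Agent.H34.GM Pool.Agent.H34.GZ Pool.Agent.H34.GU Pool.Agent.H34.GA

theorem cco_det_ne {m : ℕ} (hm : 1 ≤ m) {z : Mat m} (h : 1 ≤ aN z) : z.det ≠ 0 := by
  intro h0
  unfold aN at h
  rw [h0, abs_zero, Real.zero_rpow] at h
  · linarith
  · have : (0 : ℝ) < m := by exact_mod_cast hm
    exact (one_div_pos.2 this).ne'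

theorem cco_cont_inv (m : ℕ) : ContinuousOn (fun z : Mat m => z⁻¹) {z | z.det ≠ 0} := by
  have h : (fun z : Mat m => z⁻¹) = fun z : Mat m => (z.det)⁻¹ • z.adjugate := by
    funext z
    rw [Matrix.inv_def, Ring.inverse_eq_inv']
  rw [h]
  have h1 : Continuous fun z : Mat m => z.det := Continuous.matrix_det continuous_id
  have h2 : Continuous fun z : Mat m => z.adjugate := Continuous.matrix_adjugate continuous_id
  exact ContinuousOn.smul (ContinuousOn.inv₀ h1.continuousOn fun z hz => hz) h2.continuousOn

theorem cco_open (m : ℕ) : IsOpen {z : Mat m | z.det ≠ 0} := by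
  have h1 : Continuous fun z : Mat m => z.det := Continuous.matrix_det continuous_id
  exact isOpen_ne.preimage h1

/-- CCO. -/
theorem pf_CCO (hVLM : T_VLM) : T_CCO := by
  intro m N _ T D hS F lam hF η hη
  have hm1 := hS.one_le
  have hD := hS.dom
  obtain ⟨C, K, -, hvl⟩ := hVLM m hm1
  have hfin : hm m D < ⊤ := lt_of_le_of_lt (hvl D hD).1 ENNReal.ofReal_lt_top
  have hfm : IsFiniteMeasure ((hm m).restrict D) := ⟨by rwa [Measure.restrict_apply_univ]⟩
  obtain ⟨BF, hBF⟩ := hF.bdd
  have hsD : ∀ z ∈ D, (mt z).det ≠ 0 := fun z hz => cco_det_ne hm1 (hD.shell z hz).1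
  obtain ⟨v0, hv0⟩ : ∃ v0 : V m, v0 = fun i j => (1 : Mat m) i j := ⟨_, rfl⟩
  have hmv0 : (mt v0 : Mat m) = 1 := by
    rw [hv0]
    rfl
  have hdi : ∀ (z : V m), z ∈ D → ∀ v : V m, (mt v : Mat m).det ≠ 0 →
      (mt z * (mt v)⁻¹ : Mat m).det ≠ 0 := by
    intro z hz v hv
    rw [Matrix.det_mul, Matrix.det_nonsing_inv, Ring.inverse_eq_inv']
    exact mul_ne_zero (hsD z hz) (inv_ne_zero hv)
  have hmt : Continuous fun v : V m => (mt v : Mat m) := continuous_id
  have hev : ∀ᶠ v : V m in nhds v0, (mt v : Mat m).det ≠ 0 := by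
    have h1 : {z : Mat m | z.det ≠ 0} ∈ nhds (mt v0 : Mat m) := by
      refine (cco_open m).mem_nhds ?_
      show (mt v0 : Mat m).det ≠ 0
      rw [hmv0, Matrix.det_one]
      exact one_ne_zero
    exact hmt.continuousAt.eventually h1
  have hcont : ContinuousAt (fun v : V m => c1 D F (mt v)) v0 := by
    unfold c1
    refine tendsto_finsetSum _ fun x _ => ?_
    refine continuousAt_of_dominated (bound := fun _ => BF ^ 2) ?_ ?_ (integrable_const _) ?_
    · filter_upwards [hev] with v hv
      refine ContinuousOn.aestronglyMeasurable ?_ hD.meas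
      refine ContinuousOn.mul ?_ ?_
      · refine (hF.cont x).comp (f := fun z : V m => (mt z * (mt v)⁻¹ : Mat m)) ?_
          (fun z hz => hdi z hz v hv)
        have e1 : Continuous fun z : V m => (mt z * (mt v)⁻¹ : Mat m) :=
          hmt.mul continuous_const
        exact e1.continuousOn
      · refine Complex.continuous_conj.comp_continuousOn ?_
        exact (hF.cont x).comp (f := fun z : V m => (mt z : Mat m)) hmt.continuousOn
          (fun z hz => hsD z hz)
    · filter_upwards [hev] with v hv
      rw [ae_restrict_iff' hD.meas]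
      refine Filter.Eventually.of_forall fun z hz => ?_
      have h2 := hBF (mt z * (mt v)⁻¹) x (hdi z hz v hv)
      have h3 := hBF (mt z) x (hsD z hz)
      have hB0 : 0 ≤ BF := (norm_nonneg _).trans h3
      rw [norm_mul, RCLike.norm_conj, pow_two]
      exact mul_le_mul h2 h3 (norm_nonneg _) hB0
    · rw [ae_restrict_iff' hD.meas]
      refine Filter.Eventually.of_forall fun z hz => ?_
      refine ContinuousAt.mul ?_ continuousAt_const
      have e1 : ContinuousAt (fun v : V m => (mt z * (mt v)⁻¹ : Mat m)) v0 := by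
        refine ContinuousAt.mul continuousAt_const ?_
        have e2 : ContinuousAt (fun w : Mat m => w⁻¹) (mt v0) := by
          refine (cco_cont_inv m).continuousAt ((cco_open m).mem_nhds ?_)
          show (mt v0 : Mat m).det ≠ 0
          rw [hmv0, Matrix.det_one]
          exact one_ne_zero
        exact ContinuousAt.comp (f := fun v : V m => (mt v : Mat m)) (g := fun w : Mat m => w⁻¹)
          e2 hmt.continuousAt
      refine ContinuousAt.comp (f := fun v : V m => (mt z * (mt v)⁻¹ : Mat m))
        (g := fun g : Mat m => F g x) ?_ e1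
      refine (hF.cont x).continuousAt ((cco_open m).mem_nhds ?_)
      refine hdi z hz v0 ?_
      rw [hmv0, Matrix.det_one]
      exact one_ne_zero
  have h1 : c1 D F (mt v0) = nU D F := by
    rw [hmv0]
    unfold c1 nU
    push_cast
    refine Finset.sum_congr rfl fun x _ => ?_
    rw [← integral_complex_ofReal]
    refine integral_congr_ae (Filter.Eventually.of_forall fun z => ?_)
    beta_reduce
    rw [inv_one, mul_one, Complex.mul_conj, Complex.normSq_eq_norm_sq]
  obtain ⟨δ, hδ, h2⟩ := Metric.continuousAt_iff.1 hcont η hη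
  refine ⟨δ / 2, by positivity, fun w hw => ?_⟩
  have h3 : dist (fun i j => w i j : V m) v0 < δ := by
    rw [dist_eq_norm, hv0]
    have h4 : ‖(fun i j => w i j : V m) - fun i j => (1 : Mat m) i j‖ = sz (w - 1) := rfl
    rw [h4]
    linarith
  have h5 := h2 h3
  rw [dist_eq_norm, h1] at h5
  exact h5.le

end Pool.Agent.H63.GA
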